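import Pool.Agent.Helper39.FX.Defs
import Mathlib.RingTheory.Nullstellensatz

/-!
# Package BN of helper39's project FX: reductions of absolutely irreducible polynomials
-/

set_option autoImplicit false

open Polynomial

namespace Pool.Agent.Helper41.FX.BN

open Pool.Agent.Helper39.FX Pool.Agent.Helper39.FT

variable {R L : Type} [CommRing R] [CommRing L]

/-- a polynomial which is monic of degree `d` in the outer variable, with given coefficients -/
noncomputable def gen (d e : ℕ) (x : ℕ → ℕ → R) : R[X][X] :=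
  X ^ d + ∑ i ∈ Finset.range d, C (∑ j ∈ Finset.range e, C (x i j) * X ^ j) * X ^ i

theorem gen_map (φ : R →+* L) (d e : ℕ) (x : ℕ → ℕ → R) :
    mp φ (gen d e x) = gen d e (fun i j => φ (x i j)) := by
  simp [gen, Polynomial.map_sum]

theorem rest_lt [Nontrivial R] (d e : ℕ) (x : ℕ → ℕ → R) :
    degree (∑ i ∈ Finset.range d, C (∑ j ∈ Finset.range e, C (x i j) * X ^ j) * X ^ i : R[X][X])
      < d := by
  refine (degree_sum_le _ _).trans_lt ?_
  rw [Finset.sup_lt_iff (by exact_mod_cast WithBot.bot_lt_coe d)]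
  intro i hi
  refine (degree_C_mul_X_pow_le _ _).trans_lt ?_
  exact_mod_cast Finset.mem_range.1 hi

theorem gen_monic [Nontrivial R] (d e : ℕ) (x : ℕ → ℕ → R) : (gen d e x).Monic :=
  monic_X_pow_add (rest_lt d e x)

theorem gen_natDegree [Nontrivial R] (d e : ℕ) (x : ℕ → ℕ → R) : (gen d e x).natDegree = d :=
  by
  rw [gen, natDegree_add_eq_left_of_degree_lt, natDegree_X_pow]
  rw [degree_X_pow]
  exact rest_lt d e x

theorem gen_eq (g : R[X][X]) (hg : g.Monic) (e : ℕ) (he : ∀ i, (g.coeff i).natDegree < e)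
    (x : ℕ → ℕ → R) (hx : ∀ i < g.natDegree, ∀ j < e, x i j = (g.coeff i).coeff j) :
    gen g.natDegree e x = g := by
  conv_rhs => rw [hg.as_sum]
  rw [gen]
  congr 1
  refine Finset.sum_congr rfl fun i hi => ?_
  congr 2
  rw [(g.coeff i).as_sum_range_C_mul_X_pow' (he i)]
  refine Finset.sum_congr rfl fun j hj => ?_
  rw [hx i (Finset.mem_range.1 hi) j (Finset.mem_range.1 hj)]

theorem coeff_swap (p : R[X][X]) (i j : ℕ) :
    ((Bivariate.swap p).coeff j).coeff i = (p.coeff i).coeff j := by
  induction p using Polynomial.induction_on' with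
  | add p q hp hq => rw [map_add, coeff_add, coeff_add, hp, hq, coeff_add, coeff_add]
  | monomial n q =>
    induction q using Polynomial.induction_on' with
    | add p q hp hq =>
      rw [map_add, map_add, coeff_add, coeff_add, hp, hq, coeff_add, coeff_add]
    | monomial m r =>
      rw [Bivariate.swap_monomial_monomial, coeff_monomial, coeff_monomial]
      split_ifs with h1 h2 h2 <;> simp [coeff_monomial, *]

theorem swap_le (p : R[X][X]) (e : ℕ) (h : ∀ i, (p.coeff i).natDegree ≤ e) :
    (Bivariate.swap p).natDegree ≤ e := by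
  rw [natDegree_le_iff_coeff_eq_zero]
  intro j hj
  ext i
  rw [coeff_swap, coeff_zero]
  exact coeff_eq_zero_of_natDegree_lt ((h i).trans_lt hj)

theorem le_swap (p : R[X][X]) (i : ℕ) : (p.coeff i).natDegree ≤ (Bivariate.swap p).natDegree := by
  rw [natDegree_le_iff_coeff_eq_zero]
  intro j hj
  rw [← coeff_swap, coeff_eq_zero_of_natDegree_lt hj, coeff_zero]

/-- the indices of the variables -/
def vars (N : ℕ) [NeZero N] (b : Bool) (i j : ℕ) : Bool × Fin N × Fin N :=
  (b, Fin.ofNat N i, Fin.ofNat N j)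

/-- the equations for a factorization -/
noncomputable def eqn (N : ℕ) [NeZero N] (d d' e : ℕ) (f : R[X][X]) :
    (MvPolynomial (Bool × Fin N × Fin N) R)[X][X] :=
  gen d e (fun i j => MvPolynomial.X (vars N true i j)) *
    gen d' e (fun i j => MvPolynomial.X (vars N false i j)) - mp MvPolynomial.C f

theorem eqn_map (N : ℕ) [NeZero N] (d d' e : ℕ) (f : R[X][X])
    (φ : MvPolynomial (Bool × Fin N × Fin N) R →+* L) :
    mp φ (eqn N d d' e f) = gen d e (fun i j => φ (MvPolynomial.X (vars N true i j))) *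
      gen d' e (fun i j => φ (MvPolynomial.X (vars N false i j))) -
      mp (φ.comp MvPolynomial.C) f := by
  rw [eqn, mp, Polynomial.map_sub, Polynomial.map_mul, ← gen_map, ← gen_map]
  congr 1
  rw [Polynomial.map_map]
  congr 1
  ext <;> simp

/-- the ideal of the equations is the unit ideal -/
theorem span_top {K : Type} [Field K] (f : K[X][X])
    (hirr : Irreducible (mp (algebraMap K (AlgebraicClosure K)) f)) (N : ℕ) [NeZero N]
    (d d' e : ℕ) (hd : 0 < d) (hd' : 0 < d') :
    Ideal.span (Set.range fun ij : ℕ × ℕ => ((eqn N d d' e f).coeff ij.1).coeff ij.2) = ⊤ := by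
  by_contra hne
  set J := Ideal.span (Set.range fun ij : ℕ × ℕ => ((eqn N d d' e f).coeff ij.1).coeff ij.2) with hJ
  have h1 : (MvPolynomial.zeroLocus (AlgebraicClosure K) J).Nonempty := by
    rw [Set.nonempty_iff_ne_empty]
    intro h
    have h2 := MvPolynomial.vanishingIdeal_zeroLocus_eq_radical (K := AlgebraicClosure K) J
    rw [h, MvPolynomial.vanishingIdeal_empty] at h2
    exact hne (Ideal.radical_eq_top.1 h2.symm)
  obtain ⟨x, hx⟩ := h1
  rw [MvPolynomial.mem_zeroLocus_iff] at hx
  set φ : MvPolynomial (Bool × Fin N × Fin N) K →+* AlgebraicClosure K :=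
    (MvPolynomial.aeval x : MvPolynomial (Bool × Fin N × Fin N) K →ₐ[K]
      AlgebraicClosure K).toRingHom with hφ
  have h2 : mp φ (eqn N d d' e f) = 0 := by
    ext i j
    rw [mp, coeff_map, coe_mapRingHom, coeff_map, coeff_zero, coeff_zero]
    exact hx _ (Ideal.subset_span ⟨(i, j), rfl⟩)
  rw [eqn_map, sub_eq_zero] at h2
  have h3 : φ.comp MvPolynomial.C = algebraMap K (AlgebraicClosure K) := by
    ext a
    simp [hφ]
  rw [h3] at h2
  rcases hirr.isUnit_or_isUnit h2.symm with h | h
  · have := natDegree_eq_zero_of_isUnit h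
    rw [gen_natDegree] at this
    omega
  · have := natDegree_eq_zero_of_isUnit h
    rw [gen_natDegree] at this
    omega

/-- lifting of coefficients -/
theorem lift_mv {K σ : Type} [Field K] (B : Subring K) (c : MvPolynomial σ K)
    (h : ∀ m, c.coeff m ∈ B) : ∃ c' : MvPolynomial σ B, MvPolynomial.map B.subtype c' = c := by
  refine ⟨∑ m ∈ c.support, MvPolynomial.monomial m ⟨c.coeff m, h m⟩, ?_⟩
  rw [map_sum]
  conv_rhs => rw [c.as_sum]
  refine Finset.sum_congr rfl fun m _ => ?_
  rw [MvPolynomial.map_monomial]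
  rfl

theorem no_factor {K : Type} [Field K] (f : K[X][X]) (N : ℕ) [NeZero N] (d d' e : ℕ)
    (c : ℕ × ℕ →₀ MvPolynomial (Bool × Fin N × Fin N) K)
    (hc : (c.sum fun ij a => a * ((eqn N d d' e f).coeff ij.1).coeff ij.2) = 1) (D : RSys K)
    (hB : ∀ ij m, (c ij).coeff m ∈ D.B) (f' : D.B[X][X]) (hf' : mp D.B.subtype f' = f)
    (g h : (ZMod D.p)[X][X]) (hg : g.Monic) (hh : h.Monic) (hgd : g.natDegree = d)
    (hhd : h.natDegree = d') (hdN : d ≤ N) (hdN' : d' ≤ N) (heN : e ≤ N)
    (hge : ∀ i, (g.coeff i).natDegree < e) (hhe : ∀ i, (h.coeff i).natDegree < e)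
    (hgh : g * h = mp D.r f') : False := by
  choose c' hc' using fun ij => lift_mv D.B (c ij) (hB ij)
  have h1 : mp (MvPolynomial.map D.B.subtype) (eqn N d d' e f') = eqn N d d' e f := by
    rw [eqn_map, eqn]
    simp only [MvPolynomial.map_X]
    congr 1
    rw [← hf', mp, mp, mp, Polynomial.map_map]
    congr 1
    ext <;> simp
  have h2 : ∑ ij ∈ c.support, c' ij * ((eqn N d d' e f').coeff ij.1).coeff ij.2 = 1 := by
    apply MvPolynomial.map_injective D.B.subtype Subtype.val_injective
    rw [map_one, ← hc, Finsupp.sum, map_sum]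
    refine Finset.sum_congr rfl fun ij _ => ?_
    rw [map_mul, hc', ← h1, mp, coeff_map, coe_mapRingHom, coeff_map]
  set ψ : MvPolynomial (Bool × Fin N × Fin N) D.B →+* ZMod D.p :=
    MvPolynomial.eval₂Hom D.r (fun s => if s.1 then (g.coeff s.2.1).coeff s.2.2 else
      (h.coeff s.2.1).coeff s.2.2) with hψ
  have h3 : mp ψ (eqn N d d' e f') = 0 := by
    rw [eqn_map, sub_eq_zero]
    have e1 : gen d e (fun i j => ψ (MvPolynomial.X (vars N true i j))) = g := by
      subst hgd
      refine gen_eq g hg e hge _ fun i hi j hj => ?_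
      rw [hψ, MvPolynomial.coe_eval₂Hom, MvPolynomial.eval₂_X]
      simp [vars, Nat.mod_eq_of_lt (hi.trans_le hdN), Nat.mod_eq_of_lt (hj.trans_le heN)]
    have e2 : gen d' e (fun i j => ψ (MvPolynomial.X (vars N false i j))) = h := by
      subst hhd
      refine gen_eq h hh e hhe _ fun i hi j hj => ?_
      rw [hψ, MvPolynomial.coe_eval₂Hom, MvPolynomial.eval₂_X]
      simp [vars, Nat.mod_eq_of_lt (hi.trans_le hdN'), Nat.mod_eq_of_lt (hj.trans_le heN)]
    have e3 : ψ.comp MvPolynomial.C = D.r := by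
      ext a
      simp [hψ]
    rw [e1, e2, e3, hgh]
  have h4 := congrArg ψ h2
  rw [map_sum, map_one] at h4
  refine zero_ne_one (α := ZMod D.p) (h4 ▸ ?_)
  symm
  refine Finset.sum_eq_zero fun ij _ => ?_
  have h5 : ψ (((eqn N d d' e f').coeff ij.1).coeff ij.2) = 0 := by
    have := congrArg (fun q => (q.coeff ij.1).coeff ij.2) h3
    rw [mp, coeff_map, coe_mapRingHom, coeff_map, coeff_zero, coeff_zero] at this
    exact this
  rw [map_mul, h5, mul_zero]

theorem main : S_BN := by
  classical
  intro K _ _ f hf hirr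
  set n := f.natDegree with hn
  set e := (Bivariate.swap f).natDegree + 1 with he
  set N := n + e with hN
  have : NeZero N := ⟨by omega⟩
  have hc : ∀ d : ℕ, ∃ c : ℕ × ℕ →₀ MvPolynomial (Bool × Fin N × Fin N) K, 0 < d → d < n →
      (c.sum fun ij a => a * ((eqn N d (n - d) e f).coeff ij.1).coeff ij.2) = 1 := by
    intro d
    by_cases hd : 0 < d ∧ d < n
    · have h1 := span_top f hirr N d (n - d) e hd.1 (by omega)
      have h2 : (1 : MvPolynomial (Bool × Fin N × Fin N) K) ∈ Ideal.span (Set.range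
          fun ij : ℕ × ℕ => ((eqn N d (n - d) e f).coeff ij.1).coeff ij.2) := by
        rw [h1]
        trivial
      rw [Finsupp.mem_ideal_span_range_iff_exists_finsupp] at h2
      obtain ⟨c, hc⟩ := h2
      exact ⟨c, fun _ _ => hc⟩
    · exact ⟨0, fun h1 h2 => absurd ⟨h1, h2⟩ hd⟩
  choose c hc using hc
  refine ⟨(Finset.range n).biUnion fun d => (c d).support.biUnion fun ij =>
    (c d ij).support.image (fun m => (c d ij).coeff m), ?_⟩
  intro D hD f' hf' hm
  have hinj : Function.Injective D.B.subtype := Subtype.val_injective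
  have hnd : f'.natDegree = n := by
    rw [hn, ← hf', mp, natDegree_map_eq_of_injective (map_injective _ hinj)]
  have hm' : (mp D.r f').Monic := hm.map _
  have hnd' : (mp D.r f').natDegree = n := by
    rw [mp, hm.natDegree_map, hnd]
  have hn0 : 0 < n := by
    rw [hn, Nat.pos_iff_ne_zero]
    intro h0
    have h1 : f = 1 := hf.natDegree_eq_zero.1 h0
    rw [h1] at hirr
    simp [mp] at hirr
  rw [hm'.irreducible_iff_natDegree]
  refine ⟨fun h1 => ?_, fun g h hg hh hgh => ?_⟩
  · rw [h1, natDegree_one] at hnd'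
    omega
  by_contra hcon
  push Not at hcon
  have hsum : g.natDegree + h.natDegree = n := by
    rw [← hnd', ← hgh, hg.natDegree_mul hh]
  have hsw : (Bivariate.swap (mp D.r f')).natDegree ≤ (Bivariate.swap f).natDegree := by
    refine swap_le _ _ fun i => ?_
    refine le_trans ?_ (le_swap f i)
    rw [mp, coeff_map, coe_mapRingHom, ← hf', mp, coeff_map, coe_mapRingHom,
      natDegree_map_eq_of_injective hinj]
    exact natDegree_map_le
  have hsg : Bivariate.swap g ≠ 0 := by
    rw [Ne, EmbeddingLike.map_eq_zero_iff]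
    exact hg.ne_zero
  have hsh : Bivariate.swap h ≠ 0 := by
    rw [Ne, EmbeddingLike.map_eq_zero_iff]
    exact hh.ne_zero
  have hsgh : (Bivariate.swap g).natDegree + (Bivariate.swap h).natDegree =
      (Bivariate.swap (mp D.r f')).natDegree := by
    rw [← hgh, map_mul, natDegree_mul hsg hsh]
  refine no_factor f N g.natDegree (n - g.natDegree) e (c g.natDegree)
    (hc _ (Nat.pos_of_ne_zero hcon.1) (by have := Nat.pos_of_ne_zero hcon.2; omega)) D ?_ f' hf'
    g h hg hh rfl (by omega) (by omega) (by omega) (by omega) (fun i => ?_) (fun i => ?_) hgh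
  · intro ij m
    by_cases h0 : (c g.natDegree ij).coeff m = 0
    · rw [h0]
      exact D.B.zero_mem
    · refine (hD _ ?_ h0).1
      rw [Finset.mem_biUnion]
      refine ⟨g.natDegree, Finset.mem_range.2 (by have := Nat.pos_of_ne_zero hcon.2; omega), ?_⟩
      rw [Finset.mem_biUnion]
      refine ⟨ij, ?_, ?_⟩
      · rw [Finsupp.mem_support_iff]
        intro h1
        rw [h1] at h0
        exact h0 (MvPolynomial.coeff_zero _)
      · exact Finset.mem_image_of_mem _ (MvPolynomial.mem_support_iff.2 h0)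
  · have := le_swap g i
    omega
  · have := le_swap h i
    omega

end Pool.Agent.Helper41.FX.BN
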