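import Pool.Agent.Helper39.FX.Defs

/-!
# Package CNG of helper39's project FX: congruences for the multiplicities of the norm
-/

set_option autoImplicit false

open Polynomial IsDedekindDomain NumberField

namespace Pool.Agent.Helper41.FX.CNG

open Pool.Agent.Helper39.FX Pool.Agent.Helper39.FT Pool.Agent.TH954 Pool.Agent.Y791.BF
open Pool.Agent.Y791.BS (nnf ultra proper charZero_compl exists_unif)

/-! ## Generalities -/

section gen

theorem ev2_hom {R L M : Type} [CommRing R] [CommRing L] [CommRing M] (ι : R →+* L) (t s : L)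
    (ψ : L →+* M) (A : R[X][X]) : ψ (ev2 ι t s A) = ev2 (ψ.comp ι) (ψ t) (ψ s) A := by
  have h1 : ψ.comp (eval₂RingHom ι t) = eval₂RingHom (ψ.comp ι) (ψ t) := by
    ext <;> simp
  rw [ev2, ev2, coe_eval₂RingHom, coe_eval₂RingHom, hom_eval₂, h1]

theorem ev2_mp {R R' L : Type} [CommRing R] [CommRing R'] [CommRing L] (φ : R →+* R')
    (ι : R' →+* L) (t s : L) (A : R[X][X]) : ev2 ι t s (mp φ A) = ev2 (ι.comp φ) t s A := by
  have h1 : (eval₂RingHom ι t).comp (mapRingHom φ) = eval₂RingHom (ι.comp φ) t := by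
    ext <;> simp
  rw [ev2, ev2, coe_eval₂RingHom, coe_eval₂RingHom, mp, eval₂_map, h1]

/-- the Kummer class of an element and its value -/
theorem kum_gen {k F0 L : Type} [Field k] [Field F0] [Field L] [Algebra k F0] [Algebra k L]
    (q : Plc k F0 L) {f g : F0} {c : k} (hc : c ≠ 0) {m : ℕ} (hm : 0 < m)
    (hf : f = algebraMap k F0 c * g ^ m) {v : L} (hv : q.val f v) :
    ∃ γ : L, v = algebraMap k L c * γ ^ m := by
  have hcF : algebraMap k F0 c ≠ 0 := (_root_.map_ne_zero _).2 hc
  have hcL : algebraMap k L c ≠ 0 := (_root_.map_ne_zero _).2 hc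
  have h1 := hv.mul ((Plc.val_alg (pl := q) c).inv hcL)
  have e1 : f * (algebraMap k F0 c)⁻¹ = g ^ m := by
    rw [hf, mul_comm, ← mul_assoc, inv_mul_cancel₀ hcF, one_mul]
  rw [e1] at h1
  obtain ⟨γ, hγ⟩ := Plc.val_of_mem (Plc.mem_of_pow_mem hm h1.mem)
  refine ⟨γ, ?_⟩
  have h2 := (hγ.pow m).unique h1
  rw [h2, mul_comm, mul_assoc, inv_mul_cancel₀ hcL, mul_one]

/-- the roots of a polynomial of degree `n` over a finite field -/
theorem period {E : Type} [Field E] (p : ℕ) [Fact p.Prime] [CharP E p] (m : ℕ) (f : E[X])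
    (hf : f ≠ 0) (hfix : f.map (iterateFrobenius E p m) = f) (b : E) (hb : f.eval b = 0) :
    b ^ p ^ (m * f.natDegree.factorial) = b := by
  classical
  set F := iterateFrobenius E p m with hF
  have hroot : ∀ j : ℕ, F^[j] b ∈ f.roots.toFinset := by
    intro j
    rw [Multiset.mem_toFinset, mem_roots hf, IsRoot.def]
    induction j with
    | zero => exact hb
    | succ j ih =>
      rw [Function.iterate_succ_apply', ← hfix, eval_map, eval₂_hom, ih, map_zero]
  obtain ⟨i, hi, j, hj, hij, he⟩ := Finset.exists_ne_map_eq_of_card_lt_of_maps_to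
    (s := Finset.range (f.natDegree + 1)) (t := f.roots.toFinset) (f := fun j => F^[j] b)
    (by
      rw [Finset.card_range]
      exact (Multiset.toFinset_card_le _).trans_lt (Nat.lt_succ_of_le (card_roots' f)))
    (fun j _ => hroot j)
  rw [Finset.mem_range] at hi hj
  have hinj : Function.Injective F := F.injective
  have key : ∀ i j : ℕ, i < j → j < f.natDegree + 1 → F^[i] b = F^[j] b →
      b ^ p ^ (m * f.natDegree.factorial) = b := by
    intro i j hij hj he
    have h1 : F^[j - i] b = b := by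
      apply hinj.iterate i
      rw [← Function.iterate_add_apply, Nat.add_sub_cancel' hij.le, he]
    have h2 : Function.IsPeriodicPt F (j - i) b := h1
    have h3 : Function.IsPeriodicPt F f.natDegree.factorial b :=
      h2.trans_dvd (Nat.dvd_factorial (by omega) (by omega))
    have h4 : F^[f.natDegree.factorial] b = b := h3
    rw [hF, ← coe_iterateFrobenius_mul, iterateFrobenius_def] at h4
    exact h4
  rcases lt_or_gt_of_ne hij with h | h
  · exact key i j h hj he
  · exact key j i h hi he.symm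

/-- values of polynomials over the prime field -/
theorem frob_val {p : ℕ} [Fact p.Prime] {E : Type} [Field E] [Algebra (ZMod p) E] {m : ℕ} {a : E}
    (ha : a ^ p ^ m = a) (P : (ZMod p)[X]) : (aeval a P) ^ p ^ m = aeval a P := by
  have : CharP E p := charP_of_injective_algebraMap (algebraMap (ZMod p) E).injective p
  have h1 : iterateFrobenius E p m (aeval a P) = aeval a P := by
    rw [aeval_def, hom_eval₂, iterateFrobenius_def, ha]
    congr 1
    exact Subsingleton.elim _ _
  exact h1

/-- the norm of a root of an element of a smaller field -/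
theorem norm_pow {p : ℕ} {E : Type} [Field E] {m e M : ℕ} {g x : E} (hg0 : g ≠ 0)
    (hg : g ^ p ^ (m * e) = g) (hx : x ^ p ^ m = x) (hxg : x = g ^ M) :
    ∃ G : E, G ^ p ^ m = G ∧ x ^ e = G ^ M := by
  have hx' : ∀ i : ℕ, x ^ p ^ (m * i) = x := by
    intro i
    induction i with
    | zero => simp
    | succ i ih => rw [Nat.mul_succ, pow_add, pow_mul, ih, hx]
  refine ⟨∏ i ∈ Finset.range e, g ^ p ^ (m * i), ?_, ?_⟩
  · have h1 := Finset.prod_range_succ' (fun i => g ^ p ^ (m * i)) e
    have h2 := Finset.prod_range_succ (fun i => g ^ p ^ (m * i)) e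
    rw [h1] at h2
    simp only [hg, mul_zero, pow_zero, pow_one] at h2
    have h3 := mul_right_cancel₀ hg0 h2
    rw [← Finset.prod_pow]
    rw [← h3]
    refine Finset.prod_congr rfl fun i _ => ?_
    rw [← pow_mul, ← pow_add, Nat.mul_succ]
  · rw [← Finset.prod_pow]
    rw [Finset.prod_congr rfl (g := fun _ => x)]
    · rw [Finset.prod_const, Finset.card_range]
    · intro i _
      rw [← pow_mul, mul_comm, pow_mul, ← hxg, hx']

theorem mult_mul {k E : Type} [Field k] [Field E] [Algebra k E] {P Q : k[X]} (hP : P ≠ 0)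
    (hQ : Q ≠ 0) (b : E) : ((P * Q).map (algebraMap k E)).rootMultiplicity b =
      (P.map (algebraMap k E)).rootMultiplicity b +
        (Q.map (algebraMap k E)).rootMultiplicity b := by
  rw [Polynomial.map_mul, rootMultiplicity_mul (mul_ne_zero
    ((Polynomial.map_ne_zero_iff (algebraMap k E).injective).2 hP)
    ((Polynomial.map_ne_zero_iff (algebraMap k E).injective).2 hQ))]

theorem mult_pow {k E : Type} [Field k] [Field E] [Algebra k E] {P : k[X]} (hP : P ≠ 0) (b : E)
    (n : ℕ) : ((P ^ n).map (algebraMap k E)).rootMultiplicity b =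
      n * (P.map (algebraMap k E)).rootMultiplicity b := by
  induction n with
  | zero =>
    rw [pow_zero, zero_mul, Polynomial.map_one, rootMultiplicity_eq_zero]
    simp
  | succ n ih =>
    rw [pow_succ, mult_mul (pow_ne_zero _ hP) hP, ih]
    ring

end gen

/-! ## The points above a point of the line -/

section pts

variable {K k : Type} [Field K] [Field k] {F0 : Type} [Field F0] [Algebra k F0]

/-- the residues of the values of a function and its class -/
theorem point (Cv : Crv K k) (q : ∀ i : PlF k, Plc k F0 i.Lv) (D : RSys K) {m : ℕ} (hm : 0 < m)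
    {t s u : ball1 (D.i m).Lv} (φ : k →+* (D.i m).Lv) (hφ : φ.comp Cv.c = (D.i m).φ)
    (hφT : φ Cv.T = (t : (D.i m).Lv)) (hφs : φ Cv.α = (s : (D.i m).Lv)) {z : F0}
    (hu : (q (pl (D.i m) φ)).val z (u : (D.i m).Lv)) {M : ℕ} (hM : 0 < M) {A : D.B[X][X]}
    (hcl : ClsC Cv M (mp D.B.subtype A) z) (hu0 : D.res m u ≠ 0)
    (hA0 : ev2 (algebraMap (ZMod D.p) D.E) (D.res m t) (D.res m s) (mp D.r A) ≠ 0) :
    ∃ g : D.E, g ^ D.p ^ m = g ∧ D.res m u =
      ev2 (algebraMap (ZMod D.p) D.E) (D.res m t) (D.res m s) (mp D.r A) * g ^ M := by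
  obtain ⟨h0, g, hg⟩ := hcl
  obtain ⟨γ, hγ⟩ := kum_gen (q (pl (D.i m) φ)) h0 hM hg hu
  have e1 : algebraMap k (pl (D.i m) φ).Lv (ev2 Cv.c Cv.T Cv.α (mp D.B.subtype A)) =
      ((ev2 (D.psi m) t s A : ball1 (D.i m).Lv) : (D.i m).Lv) := by
    have h1 : algebraMap k (pl (D.i m) φ).Lv (ev2 Cv.c Cv.T Cv.α (mp D.B.subtype A)) =
      φ (ev2 Cv.c Cv.T Cv.α (mp D.B.subtype A)) := rfl
    have h2 : ((ev2 (D.psi m) t s A : ball1 (D.i m).Lv) : (D.i m).Lv) =
      (ball1 (D.i m).Lv).subtype (ev2 (D.psi m) t s A) := rfl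
    rw [h1, h2, ev2_hom, ev2_hom, ev2_mp, hφ, hφT, hφs]
    rfl
  have e2 : D.res m (ev2 (D.psi m) t s A) =
      ev2 (algebraMap (ZMod D.p) D.E) (D.res m t) (D.res m s) (mp D.r A) := by
    rw [ev2_hom, ev2_mp]
    congr 1
    apply congrArg (fun ι => ev2 ι (D.res m t) (D.res m s))
    apply RingHom.ext
    intro c
    exact D.res_psi m c
  rw [e1] at hγ
  obtain ⟨γ, hγ⟩ : ∃ γ : (D.i m).Lv, (u : (D.i m).Lv) =
    ((ev2 (D.psi m) t s A : ball1 (D.i m).Lv) : (D.i m).Lv) * γ ^ M := ⟨γ, hγ⟩
  rw [← e2] at hA0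
  have n1 := Loc.norm_one_of (D.res m) (D.res_zero m) hA0
  have n2 := Loc.norm_one_of (D.res m) (D.res_zero m) hu0
  have n3 : ‖(γ : (D.i m).Lv)‖ = 1 := by
    have h3 := congrArg norm hγ
    rw [norm_mul, n1, n2, one_mul, _root_.norm_pow] at h3
    exact (pow_eq_one_iff_of_nonneg (norm_nonneg _) hM.ne').1 h3.symm
  refine ⟨D.res m ⟨γ, n3.le⟩, (D.res_range m hm _).1 ⟨_, rfl⟩, ?_⟩
  rw [← e2, ← map_pow, ← map_mul]
  congr 1
  exact Subtype.ext hγ

end pts

theorem main (hNRM : S_NRM) (hNMR : S_NMR) : S_CNG := by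
  intro K k _ _ _ F0 _ _ Cv q D y f U V S hf hfm hS hV hkey c N A hN hpN hnp hUV hA hcls b
  obtain ⟨r1, r2, -, -, -⟩ := hNMR
  set n := Cv.f.natDegree with hn
  set e := n.factorial with he
  have he0 : 0 < e := Nat.factorial_pos _
  set fb := mp D.r f with hfb
  have hfbm : fb.Monic := hfm.map _
  have hfbn : fb.natDegree = n := by
    rw [hfb, mp, hfm.natDegree_map, hn, ← hf, mp,
      natDegree_map_eq_of_injective (map_injective _ Subtype.val_injective)]
  set RU := resultant fb (U - (c : (ZMod D.p)[X][X]) * V) with hRU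
  set RV := resultant fb V with hRV
  set RA := resultant fb (mp D.r A) with hRA
  have main : ∀ m : ℕ, 0 < m → ∀ a : D.E, a ^ D.p ^ m = a →
      aeval a (S * RU * RV * RA) ≠ 0 →
      ∃ g : D.E, g ^ D.p ^ m = g ∧ aeval a (RU ^ e) = aeval a ((RV * RA) ^ e) * g ^ (e * N) := by
    intro m hm a ha haS
    rw [map_mul, map_mul, map_mul] at haS
    have s4 : aeval a RA ≠ 0 := fun h => haS (by rw [h, mul_zero])
    have s3 : aeval a RV ≠ 0 := fun h => haS (by rw [h, mul_zero, zero_mul])
    have s2 : aeval a RU ≠ 0 := fun h => haS (by rw [h, mul_zero, zero_mul, zero_mul])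
    have s1 : aeval a S ≠ 0 := fun h => haS (by rw [h, zero_mul, zero_mul, zero_mul])
    set m' := m * e with hm'
    have hm'0 : 0 < m' := Nat.mul_pos hm he0
    have ha' : a ^ D.p ^ m' = a := by
      have : ∀ i : ℕ, a ^ D.p ^ (m * i) = a := by
        intro i
        induction i with
        | zero => simp
        | succ i ih => rw [Nat.mul_succ, pow_add, pow_mul, ih, ha]
      exact this e
    have hroots : ∀ b : D.E, ev2 (algebraMap (ZMod D.p) D.E) a b fb = 0 → b ^ D.p ^ m' = b := by
      intro b hb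
      set φa := eval₂RingHom (algebraMap (ZMod D.p) D.E) a with hφa
      have hfa : (fb.map φa).Monic := hfbm.map _
      have h1 := period D.p m (fb.map φa) hfa.ne_zero (by
        rw [Polynomial.map_map]
        congr 1
        have h2 : (iterateFrobenius D.E D.p m).comp φa = eval₂RingHom
            ((iterateFrobenius D.E D.p m).comp (algebraMap (ZMod D.p) D.E))
            (iterateFrobenius D.E D.p m a) := by
          ext <;> simp [hφa]
        rw [h2, hφa, iterateFrobenius_def, ha]
        congr 1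
        exact Subsingleton.elim _ _) b (by
        rw [eval_map]
        exact hb)
      rw [hfbm.natDegree_map, hfbn] at h1
      exact h1
    obtain ⟨t, hta, ⟨φ, hφ, hφT⟩, hall⟩ := hkey m' hm'0 a ha' s1 hroots
    have hφj : ∀ j, (φ.comp (Cv.aut j)).comp Cv.c = (D.i m').φ := by
      intro j
      rw [← hφ]
      apply RingHom.ext
      intro x
      simp [Cv.aut_c]
    have hφjT : ∀ j, (φ.comp (Cv.aut j)) Cv.T = (t : (D.i m').Lv) := by
      intro j
      rw [← hφT, RingHom.comp_apply, Cv.aut_T]
    choose s u hs hu hVu using fun j => hall (φ.comp (Cv.aut j)) (hφj j) (hφjT j)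
    -- the roots of the reduction
    have hsplit : fb.map (eval₂RingHom (algebraMap (ZMod D.p) D.E) a) =
        ∏ j, (X - C (D.res m' (s j))) := by
      have h1 : f.map (eval₂RingHom (D.psi m') t) = ∏ j, (X - C (s j)) := by
        apply map_injective (ball1 (D.i m').Lv).subtype Subtype.val_injective
        have h2 := congrArg (Polynomial.map φ) Cv.split
        rw [Polynomial.map_map, Polynomial.map_prod] at h2
        rw [Polynomial.map_map, Polynomial.map_prod]
        have h3 : Polynomial.map ((ball1 (D.i m').Lv).subtype.comp (eval₂RingHom (D.psi m') t)) f =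
            Polynomial.map (φ.comp (eval₂RingHom Cv.c Cv.T)) Cv.f := by
          rw [← hf, mp, Polynomial.map_map]
          congr 1
          refine ringHom_ext' (RingHom.ext fun x => ?_) ?_
          · simp only [RingHom.comp_apply, coe_eval₂RingHom, eval₂_C, coe_mapRingHom, map_C]
            have := congrArg (fun ψ : K →+* (D.i m').Lv => ψ (x : K)) hφ
            exact this.symm
          · simp only [RingHom.comp_apply, coe_eval₂RingHom, eval₂_X, coe_mapRingHom, map_X]
            exact hφT.symm
        rw [h3, h2]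
        refine Finset.prod_congr rfl fun j _ => ?_
        rw [Polynomial.map_sub, Polynomial.map_sub, map_X, map_X, map_C, map_C]
        congr 2
        exact hs j
      have h4 := congrArg (Polynomial.map (D.res m')) h1
      rw [Polynomial.map_map, Polynomial.map_prod] at h4
      have h5 : Polynomial.map ((D.res m').comp (eval₂RingHom (D.psi m') t)) f =
          fb.map (eval₂RingHom (algebraMap (ZMod D.p) D.E) a) := by
        rw [hfb, mp, Polynomial.map_map]
        congr 1
        refine ringHom_ext' (RingHom.ext fun x => ?_) ?_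
        · simp only [RingHom.comp_apply, coe_eval₂RingHom, eval₂_C, coe_mapRingHom, map_C]
          exact D.res_psi m' x
        · simp only [RingHom.comp_apply, coe_eval₂RingHom, eval₂_X, coe_mapRingHom, map_X]
          exact hta
      rw [← h5, h4]
      refine Finset.prod_congr rfl fun j _ => ?_
      rw [Polynomial.map_sub, map_X, map_C]
    -- the resultants
    have hres : ∀ G : (ZMod D.p)[X][X], aeval a (resultant fb G) =
        ∏ j, ev2 (algebraMap (ZMod D.p) D.E) a (D.res m' (s j)) G := by
      intro G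
      have h1 := r1 (ZMod D.p)[X] D.E (eval₂RingHom (algebraMap (ZMod D.p) D.E) a) fb G hfbm
      rw [aeval_def, ← coe_eval₂RingHom, ← h1, hsplit, r2]
      refine Finset.prod_congr rfl fun j _ => ?_
      rw [eval_map, ev2, coe_eval₂RingHom]
    have hne : ∀ (G : (ZMod D.p)[X][X]), aeval a (resultant fb G) ≠ 0 → ∀ j,
        ev2 (algebraMap (ZMod D.p) D.E) a (D.res m' (s j)) G ≠ 0 := by
      intro G hG j h0
      apply hG
      rw [hres]
      exact Finset.prod_eq_zero (Finset.mem_univ j) h0
    have hUj : ∀ j, ev2 (algebraMap (ZMod D.p) D.E) a (D.res m' (s j))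
        (U - (c : (ZMod D.p)[X][X]) * V) =
        ev2 (algebraMap (ZMod D.p) D.E) a (D.res m' (s j)) V * D.res m' (u j - c) := by
      intro j
      rw [map_sub, map_mul, map_natCast, map_sub (D.res m'), map_natCast, ← hVu j]
      ring
    have hpt : ∀ j, ∃ g : D.E, g ^ D.p ^ m' = g ∧ D.res m' (u j - c) =
        ev2 (algebraMap (ZMod D.p) D.E) a (D.res m' (s j)) (mp D.r A) * g ^ (e * N) := by
      intro j
      have hu0 : D.res m' (u j - c) ≠ 0 := by
        intro h0
        apply hne _ s2 j
        rw [hUj j, h0, mul_zero]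
      have hval : (q (pl (D.i m') (φ.comp (Cv.aut j)))).val (y - (c : F0))
          ((u j - c : ball1 (D.i m').Lv) : (D.i m').Lv) := by
        have := (hu j).sub (Plc.val_natCast (pl := q (pl (D.i m') (φ.comp (Cv.aut j)))) c)
        exact this
      have h1 := point Cv q D hm'0 (φ.comp (Cv.aut j)) (hφj j) (hφjT j) (hs j) hval
        (Nat.mul_pos he0 hN) hcls hu0 (by
          rw [hta]
          exact hne _ s4 j)
      rw [hta] at h1
      exact h1
    choose g hg1 hg2 using hpt
    have hprod : aeval a RU = aeval a RV * aeval a RA * (∏ j, g j) ^ (e * N) := by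
      rw [hRU, hRV, hRA, hres, hres, hres, ← Finset.prod_mul_distrib, ← Finset.prod_pow,
        ← Finset.prod_mul_distrib]
      refine Finset.prod_congr rfl fun j _ => ?_
      rw [hUj j, hg2 j]
      ring
    set x := aeval a RU / (aeval a RV * aeval a RA) with hx
    have hx1 : x = (∏ j, g j) ^ (e * N) := by
      rw [hx, hprod]
      field_simp
    have hg0 : (∏ j, g j) ≠ 0 := by
      intro h0
      rw [h0, zero_pow (Nat.mul_pos he0 hN).ne', mul_zero] at hprod
      exact s2 hprod
    obtain ⟨G, hG1, hG2⟩ := norm_pow (p := D.p) (m := m) (e := e) (M := e * N) hg0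
      (by
        rw [← Finset.prod_pow]
        exact Finset.prod_congr rfl fun j _ => hg1 j)
      (by
        rw [hx, div_pow, mul_pow, frob_val ha, frob_val ha, frob_val ha]) hx1
    refine ⟨G, hG1, ?_⟩
    rw [← hG2, hx, map_pow, map_pow, map_mul, div_pow]
    field_simp
  have hRUV : RV * RA ≠ 0 := mul_ne_zero hV hA
  have h1 : ((e * N : ℕ) : ℤ) ∣
      (((RU ^ e).map (algebraMap (ZMod D.p) D.E)).rootMultiplicity b : ℤ) -
        (((RV * RA) ^ e).map (algebraMap (ZMod D.p) D.E)).rootMultiplicity b :=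
    hNRM D.p (e * N) (Nat.mul_pos he0 hN) (by
    intro h
    rcases (Nat.Prime.dvd_mul D.hp.out).1 h with h | h
    · rw [he, Nat.Prime.dvd_factorial D.hp.out] at h
      omega
    · exact hpN h) (RU ^ e) ((RV * RA) ^ e) (S * RU * RV * RA) (pow_ne_zero _ hUV)
    (pow_ne_zero _ hRUV) (mul_ne_zero (mul_ne_zero (mul_ne_zero hS hUV) hV) hA) main b
  rw [mult_pow hUV, mult_pow hRUV, mult_mul hV hA] at h1
  have he1 : (e : ℤ) ≠ 0 := by exact_mod_cast he0.ne'
  rw [← mul_dvd_mul_iff_left he1]
  push_cast at h1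
  have h2 : ∀ x y z : ℤ, (e : ℤ) * x - e * (y + z) = e * (x - y - z) := by
    intro x y z
    ring
  rw [h2] at h1
  exact h1

end Pool.Agent.Helper41.FX.CNG
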